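import Pool.Agent.U409.OA.Stm3

set_option autoImplicit false

/-! Project OA, package IC2. -/

namespace Pool.Agent.U705.OA

open Pool.Agent.U409.OA

theorem prod_mul (f g : ℂ → ℂ) (v : List ℂ) :
    (v.map f).prod * (v.map g).prod = (v.map fun k => f k * g k).prod := by
  rw [List.prod_map_mul]

theorem prod_const_mul (c : ℂ) (f : ℂ → ℂ) (v : List ℂ) :
    (v.map fun k => c * f k).prod = c ^ v.length * (v.map f).prod := by
  induction v with
  | nil => simp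
  | cons a v ih =>
    simp only [List.map_cons, List.prod_cons, List.length_cons, ih, pow_succ]
    ring

theorem t_IC2 (hP : S_PERM) (hR1 : S_R1) (hR2 : S_R2) : S_IC2 := by
  intro z hz m x y v hv hv0 hxy hI
  have hx : x ≠ 0 := by rintro rfl; simp at hxy
  have hy : y ≠ 0 := by rintro rfl; simp at hxy
  have hz0 : z ≠ 0 := by rintro rfl; norm_num at hz
  have hz2 : z - 2 ≠ 0 := by
    intro h
    have : z = 2 := by linear_combination h
    subst this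
    norm_num at hz
  have hz3 : z ^ 3 = -1 := by linear_combination (z + 1) * hz
  have hz6 : z ^ 6 = 1 := by linear_combination (z ^ 3 - 1) * hz3
  -- the first term
  have e1 := (hR2 z hz x y v hxy).2
  -- the second term
  have hinv : x⁻¹ * y⁻¹ = z ^ 2 := by
    rw [← mul_inv]
    exact inv_eq_of_mul_eq_one_left hxy
  have e2 := (hR1 z x⁻¹ y⁻¹ (v.map fun t => t⁻¹) hinv).2
  have e3 := (hP z hz (x⁻¹ :: y⁻¹ :: (v.map fun t => t⁻¹)) (x⁻¹ :: ((v.map fun t => t⁻¹) ++ [y⁻¹]))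
    (List.Perm.cons _ (List.perm_append_singleton _ _).symm)).2
  -- the third term
  have e4 := (hR2 z hz x y (v ++ [-1]) hxy).1
  unfold I1 at hI ⊢
  have hQ : ((v.map fun t => t⁻¹).map fun k => (z ^ 2 * (x⁻¹ * k) - 1) * (z ^ 2 * (k * y⁻¹) - 1)).prod *
      (v.map fun k => k ^ 2).prod = (z ^ 2) ^ v.length * (v.map fun k => (z ^ 2 - x * k) * (z ^ 2 - y * k)).prod := by
    rw [List.map_map, prod_mul, ← prod_const_mul]
    congr 1
    apply List.map_congr_left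
    intro k hk
    have hk0 := hv0 k hk
    simp only [Function.comp]
    field_simp
    linear_combination (-(z ^ 2 - x * k) * (z ^ 2 - y * k)) * hxy
  have hM : ((v.map fun k => k ^ (2 * m)).prod * (v.map fun k => k ^ 2).prod) =
      (v.map fun k => k ^ (2 * (m + 1))).prod := by
    rw [prod_mul]
    congr 1
    apply List.map_congr_left
    intro k _
    ring
  have hL : (v ++ [-1] : List ℂ).map (fun k => (z ^ 2 - x * k) * (z ^ 2 - y * k)) =
      (v.map fun k => (z ^ 2 - x * k) * (z ^ 2 - y * k)) ++ [(z ^ 2 + x) * (z ^ 2 + y)] := by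
    rw [List.map_append]
    congr 1
    simp
  rw [hL, List.prod_append, List.prod_singleton] at e4
  rw [hv] at hQ
  set P1 := (v.map fun y => 1 + z ^ 2 * y).prod with hP1
  set P2 := (v.map fun y => y + z ^ 2).prod with hP2
  set P3 := (v.map fun y => 1 + y).prod with hP3
  set Q := (v.map fun k => (z ^ 2 - x * k) * (z ^ 2 - y * k)).prod with hQd
  set Q' := ((v.map fun t => t⁻¹).map fun k => (z ^ 2 * (x⁻¹ * k) - 1) * (z ^ 2 * (k * y⁻¹) - 1)).prod with hQ'd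
  set M0 := (v.map fun k => k ^ (2 * m)).prod with hM0
  set M2 := (v.map fun k => k ^ 2).prod with hM2
  simp only [List.map_cons, List.prod_cons, List.cons_append]
  rw [e1, e3, e2, e4, ← hM, ← hP1, ← hP2, ← hP3]
  set a := A z v
  set b := A z (v.map fun t => t⁻¹)
  set g := G z (v ++ [-1])
  have hbr : x ^ (2 * (m + 1)) * (y ^ (2 * (m + 1))) * ((x⁻¹ + z ^ 2) * (y⁻¹ + z ^ 2)) * (z ^ 2) ^ (2 * m + 1) =
      (1 + z ^ 2 * x) * (1 + z ^ 2 * y) := by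
    have h1 : (z ^ 2 * (x * y)) ^ (2 * m + 1) = 1 := by rw [hxy, one_pow]
    have h2 : x ^ (2 * (m + 1)) * (y ^ (2 * (m + 1))) * ((x⁻¹ + z ^ 2) * (y⁻¹ + z ^ 2)) * (z ^ 2) ^ (2 * m + 1) =
        (z ^ 2 * (x * y)) ^ (2 * m + 1) * ((x * (x⁻¹ + z ^ 2)) * (y * (y⁻¹ + z ^ 2))) := by ring
    rw [h2, h1, one_mul, mul_add, mul_add, mul_inv_cancel₀ hx, mul_inv_cancel₀ hy]
    ring
  have hs : (1 + z ^ 2 * x) * (1 + z ^ 2 * y) = z ^ 2 * ((1 + x) * (1 + y)) := by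
    linear_combination (z ^ 2 - 1) * hxy
  have hI' : (z - 2) * (a * P1 + M0 * b * P2) = z ^ (2 * m + 1) * P3 * g := by
    rw [hI]
    field_simp
  have hk : (z - 2)⁻¹ * (z - 2) = 1 := inv_mul_cancel₀ hz2
  rw [div_eq_mul_inv]
  have l1 : (x + z ^ 2) * (y + z ^ 2) * ((z - 2) * Q) * a * ((1 + z ^ 2 * x) * ((1 + z ^ 2 * y) * P1)) +
      x ^ (2 * (m + 1)) * (y ^ (2 * (m + 1)) * (M0 * M2)) * ((x⁻¹ + z ^ 2) * (y⁻¹ + z ^ 2) * ((z - 2) * Q') * b) *
        ((x + z ^ 2) * ((y + z ^ 2) * P2)) =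
      (x + z ^ 2) * (y + z ^ 2) * (z - 2) * ((1 + z ^ 2 * x) * (1 + z ^ 2 * y) * (Q * a * P1) +
        x ^ (2 * (m + 1)) * (y ^ (2 * (m + 1))) * ((x⁻¹ + z ^ 2) * (y⁻¹ + z ^ 2)) * (Q' * M2) * (M0 * b * P2)) := by
    ring
  rw [l1, hQ]
  have l2 : x ^ (2 * (m + 1)) * (y ^ (2 * (m + 1))) * ((x⁻¹ + z ^ 2) * (y⁻¹ + z ^ 2)) * ((z ^ 2) ^ (2 * m + 1) * Q) * (M0 * b * P2) =
      (1 + z ^ 2 * x) * (1 + z ^ 2 * y) * (Q * (M0 * b * P2)) := by
    rw [← hbr]; ring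
  rw [l2]
  have l3 : (x + z ^ 2) * (y + z ^ 2) * (z - 2) * ((1 + z ^ 2 * x) * (1 + z ^ 2 * y) * (Q * a * P1) +
      (1 + z ^ 2 * x) * (1 + z ^ 2 * y) * (Q * (M0 * b * P2))) =
      (x + z ^ 2) * (y + z ^ 2) * ((1 + z ^ 2 * x) * (1 + z ^ 2 * y)) * Q * ((z - 2) * (a * P1 + M0 * b * P2)) := by
    ring
  rw [l3, hI', hs]
  have l4 : z ^ (2 * (m + 1) + 1) * (z - 2)⁻¹ * ((1 + x) * ((1 + y) * P3)) *
      ((z - 2) * (Q * ((z ^ 2 + x) * (z ^ 2 + y))) * g) =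
      z ^ (2 * (m + 1) + 1) * ((z - 2)⁻¹ * (z - 2)) * ((1 + x) * ((1 + y) * P3)) *
      ((Q * ((z ^ 2 + x) * (z ^ 2 + y))) * g) := by ring
  rw [l4, hk]
  ring

end Pool.Agent.U705.OA
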